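import Pool.Agent.H.MP_8b3296_mp.F

open MeasureTheory Set Filter
open scoped RealInnerProductSpace

namespace Pool.Agent.Results.MP_a69704_mp.NotConvex

abbrev E := EuclideanSpace ℝ (Fin 3)

/-- `G` is the gradient of `u` in the sense of distributions. -/
def WG (u : E → ℝ) (G : E → E) : Prop :=
  ∀ φ : E → ℝ, ContDiff ℝ (⊤ : ℕ∞) φ → HasCompactSupport φ → ∀ w : E,
    ∫ x, u x * fderiv ℝ φ x w = -∫ x, ⟪G x, w⟫ * φ x

variable {k : ℕ}

/-- Potential of the nuclei. -/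
noncomputable def V (z : Fin k → ℝ) (R : Fin k → E) (x : E) : ℝ := ∑ j, z j / ‖x - R j‖

/-- Repulsion of the nuclei. -/
noncomputable def U (z : Fin k → ℝ) (R : Fin k → E) : ℝ :=
  ∑ i, ∑ j, if i < j then z i * z j / ‖R i - R j‖ else 0

/-- Coulomb self-energy `D(ρ,ρ)`. -/
noncomputable def D (ρ : E → ℝ) : ℝ := 1 / 2 * ∫ q : E × E, ρ q.1 * ρ q.2 / ‖q.1 - q.2‖

noncomputable def J (γ C p t : ℝ) : ℝ := γ / p * t ^ p - 3 * C / 4 * t ^ (4 / 3 : ℝ)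

/-- The energy of the density `ρ`, where `g` is the gradient entering the kinetic term. -/
noncomputable def En (A γ C p : ℝ) (z : Fin k → ℝ) (R : Fin k → E) (ρ : E → ℝ) (g : E → E) : ℝ :=
  A * (∫ x, ‖g x‖ ^ 2) + (∫ x, J γ C p (ρ x)) - (∫ x, V z R x * ρ x) + D ρ + U z R

/-- All integrals in the energy converge. -/
def Conv (γ C p : ℝ) (z : Fin k → ℝ) (R : Fin k → E) (ρ : E → ℝ) (g : E → E) : Prop :=
  Integrable (fun x => ‖g x‖ ^ 2) ∧ Integrable (fun x => J γ C p (ρ x)) ∧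
    Integrable (fun x => V z R x * ρ x) ∧
    Integrable (fun q : E × E => ρ q.1 * ρ q.2 / ‖q.1 - q.2‖)

/-- Admissible integrable densities, with `g` the gradient of `ρ^{1/2}`. -/
def Adm (p : ℝ) (ρ : E → ℝ) (g : E → E) : Prop :=
  Measurable ρ ∧ (∀ x, 0 ≤ ρ x) ∧ Integrable ρ ∧ MemLp ρ (ENNReal.ofReal p) ∧
    MemLp (fun x => √(ρ x)) 6 ∧ MemLp g 2 ∧ WG (fun x => √(ρ x)) g

/-- Energies of admissible densities of mass `l`. -/
def S (A γ C p : ℝ) (z : Fin k → ℝ) (R : Fin k → E) (l : ℝ) : Set ℝ :=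
  {e | ∃ ρ g, Adm p ρ g ∧ ∫ x, ρ x = l ∧ e = En A γ C p z R ρ g}

noncomputable def Emin (A γ C p : ℝ) (z : Fin k → ℝ) (R : Fin k → E) (l : ℝ) : ℝ :=
  sInf (S A γ C p z R l)

/-- The infima are genuine, and the energy is not convex in the mass. -/
def Fails (A γ C p : ℝ) (z : Fin k → ℝ) (R : Fin k → E) : Prop :=
  (∀ ρ g, Adm p ρ g → Conv γ C p z R ρ g) ∧
  (∀ l, 0 ≤ l → (S A γ C p z R l).Nonempty ∧ BddBelow (S A γ C p z R l)) ∧
  ¬ConvexOn ℝ (Ici 0) (Emin A γ C p z R)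

open Pool.Agent.H.MP_8b3296_mp in
theorem result (A γ p : ℝ) (hA : 0 < A) (hγ : 0 < γ) (hp : 4 / 3 < p) :
    (∀ C : ℝ, 0 < C → ∃ Z₀ : ℝ, 0 < Z₀ ∧ ∀ (k : ℕ) (z : Fin k → ℝ) (R : Fin k → E), 1 ≤ k →
      (∀ j, 0 < z j) → Function.Injective R → ∑ j, z j ≤ Z₀ → Fails A γ C p z R) ∧
    (∀ (k : ℕ) (z : Fin k → ℝ) (R : Fin k → E), 1 ≤ k → (∀ j, 0 < z j) → Function.Injective R →
      ∃ C₀ : ℝ, 0 < C₀ ∧ ∀ C, C₀ ≤ C → Fails A γ C p z R) := by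
  have hp0 : 0 < p := by linarith
  have key : ∀ (C : ℝ) (k : ℕ) (z : Fin k → ℝ) (R : Fin k → E) (K T B : ℝ) (u : E → ℝ),
      ContDiff ℝ 1 u → HasCompactSupport u → (∀ x, 0 ≤ u x) → 0 < ∫ x, u x ^ 2 → K < B →
      Pool.Agent.H.MP_8b3296_mp.En A (Pool.Agent.H.MP_8b3296_mp.J γ C p) z R (fun x => u x ^ 2)
        (gradient u) ≤ U z R - B * ∫ x, u x ^ 2 →
      (∀ {ψ : E → ℝ} {g : E → E}, Ad p ψ g → U z R - K * (∫ x, ψ x ^ 2) -
        T * (∫ x, ψ x ^ 2) ^ (5 / 3 : ℝ) ≤ Pool.Agent.H.MP_8b3296_mp.En A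
          (Pool.Agent.H.MP_8b3296_mp.J γ C p) z R (fun x => ψ x ^ 2) g) → Fails A γ C p z R := by
    intro C k z R K T B u u1 u2 u3 u4 hB u5 H
    have h1 : ∀ l, ∀ e ∈ S A γ C p z R l, U z R - K * l - T * l ^ (5 / 3 : ℝ) ≤ e := by
      rintro l e ⟨ρ, g, ⟨a, b, c, d, -, f, i⟩, rfl, rfl⟩
      obtain ⟨h, e⟩ := ad_sqrt hp0 a b c d f i
      have := H h
      simp only [fun x => congrFun e x] at this
      exact this
    have h2 : ∀ l, 0 ≤ l → (S A γ C p z R l).Nonempty := by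
      intro l hl
      obtain ⟨ρ, g, a, b, c, d, e, f, i, j⟩ := ex_rho hp0 l hl
      exact ⟨_, ρ, g, ⟨a, b, c, d, e, f, i⟩, j, rfl⟩
    refine ⟨?_, fun l hl => ⟨h2 l hl, _, h1 l⟩,
      nconv u4 hB ?_ ?_ fun m hm => le_csInf (h2 m hm) (h1 m)⟩
    · rintro ρ g ⟨a, b, c, d, -, f, i⟩
      obtain ⟨h, e⟩ := ad_sqrt hp0 a b c d f i
      have i1 := h.iJ (γ := γ) (C := C)
      have i2 := h.iV (z := z) (R := R)
      have i3 := h.eD.1
      simp only [fun x => congrFun e x] at i1 i2 i3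
      exact ⟨f.norm.integrable_sq, i1, i2, i3⟩
    · refine csInf_le ⟨_, h1 0⟩ ⟨fun _ => 0, fun _ => 0, ⟨measurable_const, fun _ => le_rfl,
        integrable_zero _ _ _, MemLp.zero, by simp, MemLp.zero,
        fun φ _ _ w => by simp⟩, by simp, ?_⟩
      exact (en_zero (A := A) (z := z) (R := R) (J_zero hp0)).symm
    · have h := bump u1 u2 hp0
      have e : (fun x => √(u x ^ 2)) = u := funext fun x => Real.sqrt_sq (u3 x)
      have hs : HasCompactSupport fun x => u x ^ 2 := u2.comp_left (g := fun t : ℝ => t ^ 2) (by simp)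
      refine (csInf_le ⟨_, h1 _⟩ ⟨fun x => u x ^ 2, gradient u, ⟨h.mψ.pow_const 2,
        fun x => sq_nonneg _, h.l2.integrable_sq,
        (u1.continuous.pow 2).memLp_of_hasCompactSupport hs, ?_, h.g2, ?_⟩, rfl, rfl⟩).trans u5
      · rw [e]
        exact u1.continuous.memLp_of_hasCompactSupport u2
      · rw [e]
        exact h.wg
  refine ⟨fun C hC => ?_, fun k z R hk hz _ => ?_⟩
  · obtain ⟨K, T, hK, -, H⟩ := lb4 hA zero_le_one
    obtain ⟨u, u1, u2, u3, u4, u5⟩ := neg_en (A := A) (γ := γ) hC hp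
    obtain ⟨N, hN⟩ : ∃ N, N = A * (∫ x, ‖gradient u x‖ ^ 2) + γ / p * (∫ x, (u x ^ 2) ^ p) -
        3 * C / 4 * (∫ x, (u x ^ 2) ^ (4 / 3 : ℝ)) +
        Pool.Agent.H.MP_8b3296_mp.D (fun x => u x ^ 2) := ⟨_, rfl⟩
    rw [← hN] at u5
    have hB : 0 < -N / ∫ x, u x ^ 2 := div_pos (by linarith) u4
    refine ⟨min 1 (-N / (∫ x, u x ^ 2) / (K + 1)), by positivity, fun k z R _ hz _ hZ =>
      key C k z R _ _ (-N / ∫ x, u x ^ 2) u u1 u2 u3 u4 ?_ ?_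
        (H k z R hz (hZ.trans (min_le_left _ _)) γ C p hγ hp0 hC)⟩
    · refine (mul_le_mul_of_nonneg_right (hZ.trans (min_le_right _ _)) hK).trans_lt ?_
      rw [div_mul_eq_mul_div, div_lt_iff₀ (by positivity)]
      exact mul_lt_mul_of_pos_left (lt_add_one K) hB
    · refine (En_le (bump u1 u2 hp0) hz R).trans (le_of_eq ?_)
      rw [← hN, div_mul_cancel₀ _ u4.ne', sub_neg_eq_add]
      rfl
  · obtain ⟨K, T, hK, -, H⟩ := lb4 hA (Finset.sum_nonneg fun j (_ : j ∈ Finset.univ) => (hz j).le)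
    obtain ⟨u, u1, u2, u3, u4⟩ := ex_bump 1 zero_le_one
    have u5 : 0 < ∫ x, u x ^ 2 := by rw [u4]; exact one_pos
    have hQ := Q_pos (bump u1 u2 hp0) u5
    obtain ⟨X, hX⟩ : ∃ X, X = A * (∫ x, ‖gradient u x‖ ^ 2) + γ / p * (∫ x, (u x ^ 2) ^ p) +
      Pool.Agent.H.MP_8b3296_mp.D fun x => u x ^ 2 := ⟨_, rfl⟩
    obtain ⟨Q, hQ'⟩ : ∃ Q, Q = ∫ x, (u x ^ 2) ^ (4 / 3 : ℝ) := ⟨_, rfl⟩
    rw [← hQ'] at hQ
    refine ⟨4 / 3 * (|X + (∑ j, z j) * K| + 1) / Q, by positivity, fun C hC => ?_⟩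
    have hC0 : 0 < C := lt_of_lt_of_le (by positivity) hC
    rw [div_le_iff₀ hQ] at hC
    refine key C k z R _ _ (3 * C / 4 * Q - X) u u1 u2 u3 u5 ?_ ?_
      (H k z R hz le_rfl γ C p hγ hp0 hC0)
    · linarith [le_abs_self (X + (∑ j, z j) * K)]
    · refine (En_le (bump u1 u2 hp0) hz R).trans (le_of_eq ?_)
      rw [u4, ← hQ', hX]
      change U z R + _ = _
      ring

end Pool.Agent.Results.MP_a69704_mp.NotConvex
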